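import Mathlib

set_option autoImplicit false

open Set Filter Topology TopologicalSpace

namespace Pool.Agent.Results.MP_e9e8de_lc.Gdelta

/-- The pairs of codes of the same open set. -/
def E {X : Type*} (U : ℕ → Set X) : Set ((ℕ → ℕ) × (ℕ → ℕ)) :=
  {p | ⋃ n, U (p.1 n) = ⋃ n, U (p.2 n)}

def pre {D : Type} (α : ℕ → D) : ℕ → List D
  | 0 => []
  | n + 1 => α n :: pre α n

lemma pre_length {D : Type} (α : ℕ → D) : ∀ n, (pre α n).length = n
  | 0 => rfl
  | n + 1 => congrArg (· + 1) (pre_length α n)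

lemma pre_inj {D : Type} {α β : ℕ → D} : ∀ {n}, pre α n = pre β n → ∀ i < n, α i = β i
  | 0, _, _, h => absurd h (by simp)
  | n + 1, h, i, hi => by
    simp only [pre, List.cons.injEq] at h
    rcases (Nat.le_of_lt_succ hi).eq_or_lt with rfl | hi
    exacts [h.1, pre_inj h.2 i hi]

lemma cyl {V : Set (ℕ → ℕ)} (hV : IsOpen V) {x : ℕ → ℕ} (hx : x ∈ V) :
    ∃ k, ∀ y : ℕ → ℕ, (∀ i < k, y i = x i) → y ∈ V := by
  obtain ⟨_, ⟨z, k, rfl⟩, h1, h2⟩ :=
    (PiNat.isTopologicalBasis_cylinders fun _ => ℕ).exists_subset_of_mem_open hx hV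
  exact ⟨k, fun y hy => h2 fun i hi => (hy i hi).trans (h1 i hi)⟩

lemma key {X : Type*} [TopologicalSpace X] {U : ℕ → Set X} (hU : IsTopologicalBasis (range U))
    {W : Set X} (hW : W.Nonempty) {f : (ℕ → ℕ) → ℕ → ℕ} (hf : Continuous f)
    (hA : range f = {y | W ⊆ ⋃ n, U (y n)}) : IsGδ (range f) := by
  classical
  let Sm := fun L : Set (ℕ → ℕ) => ∀ p ∈ W, ∃ s : Finset (ℕ × ℕ), (∀ q ∈ s, p ∈ U q.2) ∧
    ∀ y ∈ L, ∃ q ∈ s, y q.1 = q.2
  let Good := fun (s : List (ℕ × Finset (ℕ × ℕ))) (x : ℕ → ℕ) => ∃ l, ∀ L, Sm L →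
    (∀ y ∈ L, ∀ i < l, y i = x i) → ∃ α, pre α s.length = s ∧
      (∀ k, ∀ q ∈ (α k).2, U (f (fun i => (α i).1) k) ⊆ U q.2) ∧
      ∀ y ∈ L, ∀ k, ∃ q ∈ (α k).2, y q.1 = q.2
  have ho : ∀ s, IsOpen {x | Good s x} := fun s => isOpen_iff_mem_nhds.2 fun x ⟨l, hl⟩ =>
    mem_of_superset ((PiNat.isOpen_cylinder _ x l).mem_nhds (PiNat.self_mem_cylinder x l))
      fun z hz => ⟨l, fun L h1 h2 => hl L h1 fun y hy i hi => (h2 y hy i hi).trans (hz i hi)⟩
  have root : ∀ x, Good [] x := fun x => ⟨0, fun L hL _ => by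
    let N := {n | ∃ s : Finset (ℕ × ℕ), (∀ q ∈ s, U n ⊆ U q.2) ∧ ∀ y ∈ L, ∃ q ∈ s, y q.1 = q.2}
    have h1 : ∀ p ∈ W, ∃ n ∈ N, p ∈ U n := fun p hp => by
      obtain ⟨s, h1, h2⟩ := hL p hp
      obtain ⟨_, ⟨n, rfl⟩, h3, h4⟩ := hU.exists_subset_of_mem_open (mem_iInter₂.2 h1)
        (isOpen_biInter_finset fun q _ => hU.isOpen ⟨_, rfl⟩)
      exact ⟨n, ⟨s, fun q hq => h4.trans (biInter_subset_of_mem hq), h2⟩, h3⟩
    obtain ⟨y, hy⟩ := N.to_countable.exists_eq_range ((h1 _ hW.some_mem).imp fun _ h => h.1)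
    obtain ⟨β, rfl⟩ := hA.symm.subset (show W ⊆ ⋃ n, U (y n) from fun p hp => by
      obtain ⟨n, hn, h⟩ := h1 p hp
      obtain ⟨k, rfl⟩ := hy.subset hn
      exact mem_iUnion.2 ⟨k, h⟩)
    choose s h2 h3 using fun k => hy.symm.subset (mem_range_self k)
    exact ⟨fun k => (β k, s k), rfl, h2, fun y hy k => h3 k y hy⟩⟩
  have : range f = closure (range f) ∩ ⋂ s, ({x | Good s x}ᶜ ∪ ⋃ d, {x | Good (d :: s) x}) := by
    apply subset_antisymm
    · refine fun x hx => ⟨subset_closure hx, mem_iInter.2 fun s =>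
        or_iff_not_imp_left.2 fun h => ?_⟩
      obtain ⟨l, hl⟩ := not_not.1 h
      by_contra hn
      simp only [mem_iUnion, mem_setOf_eq, Good, not_exists, not_forall] at hn
      choose L h1 h2 h3 using fun d => hn d (l + Encodable.encode d)
      obtain ⟨α, a1, a2, a3⟩ := hl (⋃ d, L d) (fun p hp => by
        obtain ⟨j, hj⟩ := mem_iUnion.1 (hA.subset hx hp)
        choose t t1 t2 using fun d => h1 d p hp
        have hF := (finite_Iic j).preimage (Encodable.encode_injective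
          (α := ℕ × Finset (ℕ × ℕ))).injOn
        refine ⟨insert (j, x j) (hF.toFinset.biUnion t), fun q hq => ?_, fun y hy => ?_⟩
        · rcases Finset.mem_insert.1 hq with rfl | hq
          · exact hj
          · obtain ⟨d, -, hd⟩ := Finset.mem_biUnion.1 hq
            exact t1 d q hd
        · obtain ⟨d, hd⟩ := mem_iUnion.1 hy
          by_cases h : Encodable.encode d ≤ j
          · exact (t2 d y hd).imp fun q hq => ⟨Finset.mem_insert_of_mem
              (Finset.mem_biUnion.2 ⟨d, hF.mem_toFinset.2 h, hq.1⟩), hq.2⟩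
          · exact ⟨_, Finset.mem_insert_self _ _, h2 d y hd j (by omega)⟩) fun y hy i hi =>
        let ⟨d, hd⟩ := mem_iUnion.1 hy; h2 d y hd i (by omega)
      exact h3 (α s.length) α ⟨congrArg _ a1, a2, fun y hy => a3 y (mem_iUnion.2 ⟨_, hy⟩)⟩
    · rintro x ⟨hx, h⟩
      have : ∀ s, ∃ d, Good s x → Good (d :: s) x := fun s => by
        rcases mem_iInter.1 h s with h | h
        · exact ⟨default, fun h' => absurd h' h⟩
        · exact (mem_iUnion.1 h).imp fun _ h _ => h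
      choose g hg using this
      obtain ⟨s, h0, hs⟩ : ∃ s : ℕ → List _, s 0 = [] ∧ ∀ n, s (n + 1) = g (s n) :: s n :=
        ⟨fun n => Nat.rec [] (fun _ s => g s :: s) n, rfl, fun _ => rfl⟩
      have h1 : ∀ n, s n = pre (fun n => g (s n)) n ∧ Good (s n) x := fun n => by
        induction n with
        | zero => exact ⟨h0, h0 ▸ root x⟩
        | succ n ih => exact ⟨by rw [hs, pre, ← ih.1], hs n ▸ hg _ ih.2⟩
      have h2 : ∀ n, ∃ (α : ℕ → ℕ × Finset (ℕ × ℕ)) (y : ℕ → ℕ), (∀ i < n, α i = g (s i)) ∧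
          (∀ i < n, y i = x i) ∧ (∀ k, ∀ q ∈ (α k).2, U (f (fun i => (α i).1) k) ⊆ U q.2) ∧
          ∀ k, ∃ q ∈ (α k).2, y q.1 = q.2 := fun n => by
        obtain ⟨l, hl⟩ := (h1 n).2
        obtain ⟨y, y1, y2⟩ := mem_closure_iff.1 hx _ (PiNat.isOpen_cylinder _ x (l + n))
          (PiNat.self_mem_cylinder x _)
        obtain ⟨α, a1, a2, a3⟩ := hl {y} (fun p hp => by
          obtain ⟨j, hj⟩ := mem_iUnion.1 (hA.subset y2 hp)
          exact ⟨{(j, y j)}, by simpa, by simp⟩) fun z hz i hi => hz ▸ y1 i (by omega)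
        rw [(h1 n).1, pre_length] at a1
        exact ⟨α, y, pre_inj a1, fun i hi => y1 i (by omega), a2, a3 y rfl⟩
      refine hA.symm.subset fun p hp => ?_
      obtain ⟨k, hk⟩ := mem_iUnion.1 (hA.subset ⟨fun i => (g (s i)).1, rfl⟩ hp)
      obtain ⟨n, hn⟩ := cyl ((isOpen_discrete {f (fun i => (g (s i)).1) k}).preimage
        ((continuous_apply k).comp hf)) rfl
      obtain ⟨α, y, a1, a2, a3, a4⟩ := h2 (n + k + (g (s k)).2.sup Prod.fst + 1)
      obtain ⟨q, q1, q2⟩ := a4 k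
      have := Finset.le_sup (f := Prod.fst) (a1 k (by omega) ▸ q1)
      refine mem_iUnion.2 ⟨q.1, ?_⟩
      rw [← a2 _ (by omega), q2]
      refine a3 k q q1 ?_
      rwa [show f _ k = _ from hn (fun i => (α i).1) fun i hi => by rw [a1 i (by omega)]]
  rw [this]
  exact isClosed_closure.isGδ.inter (IsGδ.iInter fun s => (ho s).isClosed_compl.isGδ.union
    (isOpen_iUnion fun d => ho _).isGδ)

theorem result {X : Type*} [TopologicalSpace X] (U : ℕ → Set X) (hU : IsTopologicalBasis (range U))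
    (hE : @MeasurableSet _ (borel _) (E U)) : IsGδ (E U) := by
  rw [← BorelSpace.measurable_eq (α := (ℕ → ℕ) × (ℕ → ℕ))] at hE
  have hA : ∀ m, IsGδ {y : ℕ → ℕ | U m ⊆ ⋃ n, U (y n)} := fun m => by
    rcases (U m).eq_empty_or_nonempty with h | h
    · simp [h]
    have : Measurable fun y : ℕ → ℕ => ((fun n => Nat.casesOn n m y : ℕ → ℕ), y) :=
      (measurable_pi_lambda _ fun n => by cases n <;> simp only <;> fun_prop).prodMk measurable_id
    have h1 := (this hE).analyticSet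
    have h2 : (fun y : ℕ → ℕ => ((fun n => Nat.casesOn n m y : ℕ → ℕ), y)) ⁻¹' E U =
        {y : ℕ → ℕ | U m ⊆ ⋃ n, U (y n)} := by
      ext y
      simp only [E, mem_preimage, mem_setOf_eq]
      rw [← union_iUnion_nat_succ]
      exact union_eq_right
    rw [h2, MeasureTheory.AnalyticSet] at h1
    obtain h1 | ⟨f, hf, h1⟩ := h1
    · exact h1 ▸ IsGδ.empty
    · exact h1 ▸ key hU h hf h1
  have hB : ∀ a b : (ℕ → ℕ) × (ℕ → ℕ) → ℕ → ℕ, Continuous a → Continuous b →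
      IsGδ {p | ⋃ n, U (a p n) ⊆ ⋃ n, U (b p n)} := fun a b ha hb => by
    have : {p | ⋃ n, U (a p n) ⊆ ⋃ n, U (b p n)} = ⋂ k, ⋂ m, ((fun p => a p k) ⁻¹' {m}ᶜ ∪
        b ⁻¹' {y : ℕ → ℕ | U m ⊆ ⋃ n, U (y n)}) := by
      ext p
      simp [← imp_iff_not_or]
    rw [this]
    exact IsGδ.iInter fun k => IsGδ.iInter fun m => ((isOpen_discrete _).preimage
      ((continuous_apply k).comp ha)).isGδ.union ((hA m).preimage hb)
  convert (hB _ _ continuous_fst continuous_snd).inter (hB _ _ continuous_snd continuous_fst) using 1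
  exact Set.ext fun p => Subset.antisymm_iff

end Pool.Agent.Results.MP_e9e8de_lc.Gdelta
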